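import Pool.Agent.Y883.GJ.Stm

set_option autoImplicit false

/-! ORTH: orthogonality and Parseval for the Dirichlet characters modulo `q`. -/

namespace Pool.Agent.Y297.GJ

open Finset
open Pool.Agent.H807R2.Dav (ee)
open Pool.Agent.Y883.GJ

/-- a character sum is the sum over the classes -/
theorem cs_eq (q N : ℕ) [NeZero q] (F : ℕ → ℂ) (β : ℝ) (χ : DirichletCharacter ℂ q) :
    cs q N F β χ = ∑ l : ZMod q, χ l * cl q N F β l := by
  unfold cs cl
  rw [← Finset.sum_fiberwise (Icc 1 N) (fun n : ℕ => (n : ZMod q))]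
  refine Finset.sum_congr rfl fun l _ => ?_
  rw [Finset.mul_sum]
  refine Finset.sum_congr rfl fun n hn => ?_
  rw [Finset.mem_filter] at hn
  rw [hn.2]
  ring

/-- on units the class sum is the sum over all characters -/
theorem cl_eq (q N : ℕ) [NeZero q] (F : ℕ → ℂ) (β : ℝ) (l : ZMod q) (hl : IsUnit l) :
    cl q N F β l = (q.totient : ℂ)⁻¹ * ∑ χ : DirichletCharacter ℂ q, χ⁻¹ l * cs q N F β χ := by
  have hq : (q.totient : ℂ) ≠ 0 := by
    have : 0 < q.totient := Nat.totient_pos.mpr (Nat.pos_of_ne_zero (NeZero.ne q))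
    exact_mod_cast this.ne'
  have h1 : ∑ χ : DirichletCharacter ℂ q, χ⁻¹ l * cs q N F β χ = q.totient * cl q N F β l := by
    calc ∑ χ : DirichletCharacter ℂ q, χ⁻¹ l * cs q N F β χ
        = ∑ χ : DirichletCharacter ℂ q, ∑ m : ZMod q, (χ l⁻¹ * χ m) * cl q N F β m := by
          refine Finset.sum_congr rfl fun χ _ => ?_
          rw [cs_eq, Finset.mul_sum]
          refine Finset.sum_congr rfl fun m _ => ?_
          have h2 : χ⁻¹ l = χ l⁻¹ := by
            rw [MulChar.inv_apply]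
            congr 1
            rw [Ring.inverse_of_isUnit hl]
            have := ZMod.inv_coe_unit hl.unit
            simpa using this.symm
          rw [h2]
          ring
      _ = ∑ m : ZMod q, (∑ χ : DirichletCharacter ℂ q, χ l⁻¹ * χ m) * cl q N F β m := by
          rw [Finset.sum_comm]
          refine Finset.sum_congr rfl fun m _ => ?_
          rw [Finset.sum_mul]
      _ = ∑ m : ZMod q, (if l = m then (q.totient : ℂ) else 0) * cl q N F β m := by
          refine Finset.sum_congr rfl fun m _ => ?_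
          rw [DirichletCharacter.sum_char_inv_mul_char_eq ℂ hl m]
      _ = q.totient * cl q N F β l := by
          simp [ite_mul]
  rw [h1, ← mul_assoc, inv_mul_cancel₀ hq, one_mul]

/-- orthogonality of two characters -/
theorem ortho (q : ℕ) [NeZero q] (χ ψ : DirichletCharacter ℂ q) :
    ∑ l : ZMod q, χ⁻¹ l * ψ l = if χ = ψ then (q.totient : ℂ) else 0 := by
  have h1 : ∑ l : ZMod q, χ⁻¹ l * ψ l = ∑ l : ZMod q, (χ⁻¹ * ψ) l := by
    refine Finset.sum_congr rfl fun l _ => ?_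
    rw [MulChar.mul_apply]
  rw [h1]
  split_ifs with h
  · subst h
    rw [inv_mul_cancel, MulChar.sum_one_eq_card_units, ZMod.card_units_eq_totient]
  · exact MulChar.sum_eq_zero_of_ne_one (fun h2 => h (by
      have := inv_mul_eq_one.mp h2
      exact this))

/-- Parseval for a combination of characters -/
theorem pars (q : ℕ) [NeZero q] (S : Finset (DirichletCharacter ℂ q))
    (c : DirichletCharacter ℂ q → ℂ) :
    ∑ l : ZMod q, ‖(q.totient : ℂ)⁻¹ * ∑ χ ∈ S, χ⁻¹ l * c χ‖ ^ 2 =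
      (q.totient : ℝ)⁻¹ * ∑ χ ∈ S, ‖c χ‖ ^ 2 := by
  classical
  have hq : (q.totient : ℂ) ≠ 0 := by
    have : 0 < q.totient := Nat.totient_pos.mpr (Nat.pos_of_ne_zero (NeZero.ne q))
    exact_mod_cast this.ne'
  have h1 : ∀ l : ZMod q, ((‖(q.totient : ℂ)⁻¹ * ∑ χ ∈ S, χ⁻¹ l * c χ‖ ^ 2 : ℝ) : ℂ) =
      (q.totient : ℂ)⁻¹ ^ 2 * ∑ χ ∈ S, ∑ ψ ∈ S, (χ⁻¹ l * ψ l) * (c χ * star (c ψ)) := by
    intro l
    push_cast
    rw [← Complex.mul_conj']
    rw [map_mul, map_sum, map_inv₀, Complex.conj_natCast]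
    rw [show (q.totient : ℂ)⁻¹ * (∑ χ ∈ S, χ⁻¹ l * c χ) *
      ((q.totient : ℂ)⁻¹ * ∑ χ ∈ S, (starRingEnd ℂ) (χ⁻¹ l * c χ)) =
      (q.totient : ℂ)⁻¹ ^ 2 * ((∑ χ ∈ S, χ⁻¹ l * c χ) *
        ∑ χ ∈ S, (starRingEnd ℂ) (χ⁻¹ l * c χ)) by ring]
    rw [Finset.sum_mul_sum]
    congr 1
    refine Finset.sum_congr rfl fun χ _ => ?_
    refine Finset.sum_congr rfl fun ψ _ => ?_
    rw [map_mul]
    have h2 : (starRingEnd ℂ) (ψ⁻¹ l) = ψ l := by
      have := MulChar.star_apply' ψ⁻¹ l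
      rw [inv_inv] at this
      exact this
    rw [h2]
    change χ⁻¹ l * c χ * (ψ l * star (c ψ)) = _
    ring
  have h3 : ((∑ l : ZMod q, ‖(q.totient : ℂ)⁻¹ * ∑ χ ∈ S, χ⁻¹ l * c χ‖ ^ 2 : ℝ) : ℂ) =
      (((q.totient : ℝ)⁻¹ * ∑ χ ∈ S, ‖c χ‖ ^ 2 : ℝ) : ℂ) := by
    rw [Complex.ofReal_sum]
    rw [Finset.sum_congr rfl fun l _ => h1 l]
    rw [← Finset.mul_sum]
    rw [Finset.sum_comm]
    have h4 : ∀ χ ∈ S, ∑ l : ZMod q, ∑ ψ ∈ S, (χ⁻¹ l * ψ l) * (c χ * star (c ψ)) =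
        q.totient * ((‖c χ‖ ^ 2 : ℝ) : ℂ) := by
      intro χ hχ
      rw [Finset.sum_comm]
      have h5 : ∀ ψ ∈ S, ∑ l : ZMod q, (χ⁻¹ l * ψ l) * (c χ * star (c ψ)) =
          if χ = ψ then (q.totient : ℂ) * (c χ * star (c χ)) else 0 := by
        intro ψ _
        rw [← Finset.sum_mul, ortho]
        split_ifs with h
        · rw [h]
        · rw [zero_mul]
      rw [Finset.sum_congr rfl h5, Finset.sum_ite_eq, if_pos hχ]
      congr 1
      push_cast
      exact Complex.mul_conj' (c χ)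
    rw [Finset.sum_congr rfl h4, ← Finset.mul_sum]
    push_cast
    field_simp
  exact_mod_cast h3

/-- the characters vanish at nonunits -/
theorem clB_nonunit (q N : ℕ) (F : ℕ → ℂ) (β : ℝ) (B : Finset (DirichletCharacter ℂ q))
    (l : ZMod q) (hl : ¬ IsUnit l) : clB q N F β B l = 0 := by
  unfold clB
  rw [Finset.sum_eq_zero, mul_zero]
  intro χ _
  rw [MulChar.map_nonunit _ hl, zero_mul]

theorem cl_sub (q N : ℕ) [NeZero q] (F : ℕ → ℂ) (β : ℝ) (B : Finset (DirichletCharacter ℂ q))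
    (l : ZMod q) (hl : IsUnit l) :
    cl q N F β l - clB q N F β B l =
      clB q N F β (univ.filter (fun χ => χ ∉ B)) l := by
  classical
  rw [cl_eq q N F β l hl]
  unfold clB
  rw [← mul_sub]
  congr 1
  rw [← Finset.sum_filter_add_sum_filter_not univ (fun χ : DirichletCharacter ℂ q => χ ∈ B)]
  have h1 : univ.filter (fun χ : DirichletCharacter ℂ q => χ ∈ B) = B := by
    ext χ
    simp
  rw [h1]
  ring

theorem part1 (q N : ℕ) [NeZero q] (F : ℕ → ℂ) (β : ℝ) (B : Finset (DirichletCharacter ℂ q)) :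
    ∑ l : ZMod q, ‖cl q N F β l - clB q N F β B l‖ ^ 2 =
    (q.totient : ℝ)⁻¹ * ∑ χ ∈ univ.filter (fun χ => χ ∉ B), ‖cs q N F β χ‖ ^ 2 +
      ∑ l ∈ univ.filter (fun l : ZMod q => ¬ IsUnit l), ‖cl q N F β l‖ ^ 2 := by
  classical
  rw [← pars q (univ.filter (fun χ => χ ∉ B)) (fun χ => cs q N F β χ)]
  rw [Finset.sum_filter, ← Finset.sum_add_distrib]
  refine Finset.sum_congr rfl fun l _ => ?_
  by_cases hl : IsUnit l
  · rw [if_neg (not_not.mpr hl), add_zero, cl_sub q N F β B l hl]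
    rfl
  · rw [if_pos hl, clB_nonunit q N F β B l hl, sub_zero]
    have := clB_nonunit q N F β (univ.filter (fun χ => χ ∉ B)) l hl
    unfold clB at this
    rw [this]
    simp

theorem part3 (q N : ℕ) [NeZero q] (F : ℕ → ℂ) (β : ℝ) :
    ∑ χ : DirichletCharacter ℂ q, ‖cs q N F β χ‖ ^ 2 =
    q.totient * ∑ l ∈ univ.filter (fun l : ZMod q => IsUnit l), ‖cl q N F β l‖ ^ 2 := by
  classical
  have hq : (q.totient : ℝ) ≠ 0 := by
    have : 0 < q.totient := Nat.totient_pos.mpr (Nat.pos_of_ne_zero (NeZero.ne q))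
    exact_mod_cast this.ne'
  have h1 := part1 q N F β ∅
  have h2 : ∀ l : ZMod q, cl q N F β l - clB q N F β ∅ l = cl q N F β l := by
    intro l
    unfold clB
    simp
  simp only [h2] at h1
  have h3 : univ.filter (fun χ : DirichletCharacter ℂ q => χ ∉ (∅ : Finset _)) = univ := by
    ext χ
    simp
  rw [h3] at h1
  rw [← Finset.sum_filter_add_sum_filter_not univ (fun l : ZMod q => IsUnit l)
    (fun l => ‖cl q N F β l‖ ^ 2)] at h1
  have h4 := add_right_cancel h1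
  rw [h4, ← mul_assoc, mul_inv_cancel₀ hq, one_mul]

theorem part2 (q N : ℕ) [NeZero q] (F : ℕ → ℂ) (β : ℝ) (B : Finset (DirichletCharacter ℂ q)) :
    ∑ l : ZMod q, ‖clB q N F β B l‖ ^ 2 ≤ ∑ l : ZMod q, ‖cl q N F β l‖ ^ 2 := by
  classical
  have hq : (q.totient : ℝ) ≠ 0 := by
    have : 0 < q.totient := Nat.totient_pos.mpr (Nat.pos_of_ne_zero (NeZero.ne q))
    exact_mod_cast this.ne'
  calc ∑ l : ZMod q, ‖clB q N F β B l‖ ^ 2
      = (q.totient : ℝ)⁻¹ * ∑ χ ∈ B, ‖cs q N F β χ‖ ^ 2 := pars q B (fun χ => cs q N F β χ)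
    _ ≤ (q.totient : ℝ)⁻¹ * ∑ χ : DirichletCharacter ℂ q, ‖cs q N F β χ‖ ^ 2 := by
        refine mul_le_mul_of_nonneg_left ?_ (by positivity)
        exact Finset.sum_le_sum_of_subset_of_nonneg (Finset.subset_univ _)
          (fun _ _ _ => by positivity)
    _ = ∑ l ∈ univ.filter (fun l : ZMod q => IsUnit l), ‖cl q N F β l‖ ^ 2 := by
        rw [part3, ← mul_assoc, inv_mul_cancel₀ hq, one_mul]
    _ ≤ ∑ l : ZMod q, ‖cl q N F β l‖ ^ 2 :=
        Finset.sum_le_sum_of_subset_of_nonneg (Finset.subset_univ _)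
          (fun _ _ _ => by positivity)

/-- ORTH -/
theorem orth : OrthStm := by
  intro q N _ F β B
  refine ⟨?_, part2 q N F β B, ?_⟩
  · convert part1 q N F β B using 2
  · convert part3 q N F β using 2

end Pool.Agent.Y297.GJ
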